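import Mathlib
import Pool.Agent.V11169.MC4

set_option autoImplicit false

namespace Pool.Agent.Results.MP_018646_lc.NotProperIO

open MeasureTheory

/-- `U` is a universal plain machine: a partial computable function on binary strings that
simulates every partial computable function with a constant loss in program length. -/
def UniversalPlain (U : List Bool →. List Bool) : Prop :=
  Partrec U ∧ ∀ M : List Bool →. List Bool, Partrec M →
    ∃ c : ℕ, ∀ p x : List Bool, x ∈ M p → ∃ q : List Bool, x ∈ U q ∧ q.length ≤ p.length + c

/-- The domain of `M` is prefix-free: no program is a proper initial segment of another one. -/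
def PrefixFree (M : List Bool →. List Bool) : Prop :=
  ∀ p q : List Bool, (M p).Dom → (M q).Dom → p <+: q → p = q

/-- `V` is a universal prefix-free machine: a partial computable function with prefix-free domain
that simulates every such function with a constant loss in program length. -/
def UniversalPrefixFree (V : List Bool →. List Bool) : Prop :=
  Partrec V ∧ PrefixFree V ∧ ∀ M : List Bool →. List Bool, Partrec M → PrefixFree M →
    ∃ c : ℕ, ∀ p x : List Bool, x ∈ M p → ∃ q : List Bool, x ∈ V q ∧ q.length ≤ p.length + c

/-- The complexity of `x` with respect to the machine `M`: the least length of a program for `x`.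
It is the plain complexity `C(x)` when `M` is a universal plain machine, and the prefix-free
complexity `K(x)` when `M` is a universal prefix-free machine. -/
noncomputable def complexity (M : List Bool →. List Bool) (x : List Bool) : ℕ :=
  sInf {k : ℕ | ∃ q : List Bool, q.length = k ∧ x ∈ M q}

/-- The complexity of the measure `μ` at length `n`: the `μ`-average of the complexity over the
strings of length `n`. -/
noncomputable def measureComplexity (M : List Bool →. List Bool) (μ : Measure (ℕ → Bool))
    (n : ℕ) : ℝ :=
  ∑ x : Fin n → Bool,
    (μ {Z : ℕ → Bool | ∀ i : Fin n, Z i = x i}).toReal * (complexity M (List.ofFn x) : ℝ)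

/-- (A1): for some `c`, for infinitely many `n`, `K(μ ↾ n) ≥ n + K(n) - c`. -/
def A1 (V : List Bool →. List Bool) (code : ℕ → List Bool) (μ : Measure (ℕ → Bool)) : Prop :=
  ∃ c : ℝ, {n : ℕ | (n : ℝ) + complexity V (code n) - c ≤ measureComplexity V μ n}.Infinite

/-- (B1): for some `c`, for infinitely many `n`, `C(μ ↾ n) ≥ n - c`. -/
def B1 (U : List Bool →. List Bool) (μ : Measure (ℕ → Bool)) : Prop :=
  ∃ c : ℝ, {n : ℕ | (n : ℝ) - c ≤ measureComplexity U μ n}.Infinite

theorem complexity_eq (M : List Bool →. List Bool) (μ : Measure (ℕ → Bool))
    [IsProbabilityMeasure μ] (n : ℕ) :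
    measureComplexity M μ n = ∫ Z, (V11169.KR.cx M (H561R3.pre Z n) : ℝ) ∂μ :=
  (V11169.KR.integral_pre μ n (fun x => (V11169.KR.cx M x : ℝ))).symm

/-- Every measure satisfying (B1) also satisfies (A1). -/
theorem result : ∀ U V : List Bool →. List Bool, UniversalPlain U → UniversalPrefixFree V →
    ∀ code : ℕ → List Bool, Computable code →
      ∀ μ : Measure (ℕ → Bool), IsProbabilityMeasure μ → B1 U μ → A1 V code μ := by
  intro U V hU hV code hcode μ hμ h
  obtain ⟨c, hc⟩ := h
  rw [← Nat.frequently_atTop_iff_infinite] at hc
  simp only [complexity_eq] at hc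
  obtain ⟨d, hd⟩ := V11169.MC.main_one hU.2 hV.1 hV.2.1 hV.2.2 hcode μ ⟨c, hc⟩
  refine ⟨d, ?_⟩
  rw [← Nat.frequently_atTop_iff_infinite]
  simp only [complexity_eq]
  exact hd

end Pool.Agent.Results.MP_018646_lc.NotProperIO
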